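import Pool.Agent.Q325.SpecD

/-!
# Testing an upper bound on the tensor spectral norm is `∀ℝ`-complete

Sketch of the hardness proof. A satisfiable system of constraints has a solution of doubly
exponential size at most, and a bounded system without solutions is violated by at least a doubly
exponentially small amount. With a variable `w` forced by robust repeated squaring to be at most
as small as that amount, satisfiability becomes the strict inequality `m ∑ g_l(x)² < (2 w x₀)²`
between squares of quadratic forms (`m` is the number of the forms `g_l`), for some `x`. Let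
`g_l(x,y)` be the polar forms. For `C = 576 m²` the biquadratic form

  `2C (|x|²|y|² - ⟨x,y⟩²) + m ∑ g_l(x,y)² - (w·x₀)(x,y)²`

takes a negative value if and only if the quartic form `m ∑ g_l(x)² - (2 w x₀)²` does: scale
`x`, `y` to have the same length and put `x = u + v`, `y = u - v` with orthogonal `u`, `v`. Finally
`4C |x|²|y|²` minus that biquadratic form is a sum of squares of explicit bilinear forms with
integer coefficients, the slices of the tensor, and `4C = (48 m)²`.
-/

namespace Pool.Agent.Results.MP_50cd9e_lc.SpectralNormComplete

open Pool.Agent.NPC Pool.Agent.NPC.ER Pool.Agent.Q325.Spec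

/-- SPECTRAL-NORM-BOUND is `∀ℝ`-complete and SPECTRAL-NORM-EXCEED is `∃ℝ`-complete. -/
theorem result : ARComplete (lang SpectralNormBound) ∧ ERComplete (lang SpectralNormExceed) :=
  ⟨⟨Pool.Agent.NPC.Q325SP.bound_mem, Pool.Agent.NPC.Q325SP.bound_hard⟩,
    ⟨Pool.Agent.NPC.Q325SP.exceed_mem, Pool.Agent.NPC.Q325SP.exceed_hard⟩⟩

end Pool.Agent.Results.MP_50cd9e_lc.SpectralNormComplete
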